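import Mathlib
import Pool.Agent.Lib.MP_5c8dfa_al.LS.Main

/-!
Positive answer to Q1 for every `H` with a large simple section.
-/

set_option autoImplicit false

namespace Pool.Agent.Results.MP_5c8dfa_al.LargeSection

/-- There is a number `C` such that for every finite set `Ω`, every `G ≤ Sym(Ω)` and every
epimorphism `φ : G → H`: if some subgroup `K` of `H` has a simple quotient `T` of order at least
`C`, then for some `Δ ⊆ Ω` the setwise stabilizer `G_Δ` is not mapped onto `H`. -/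
theorem result :
    ∃ C : ℕ, ∀ (Ω : Type) [Finite Ω] (G : Subgroup (Equiv.Perm Ω)) (H : Type) [Group H]
      (φ : G →* H), Function.Surjective φ →
      (∃ (K : Subgroup H) (T : Type) (_ : Group T) (ψ : K →* T),
        IsSimpleGroup T ∧ Function.Surjective ψ ∧ C ≤ Nat.card T) →
      ∃ Δ : Set Ω, ∃ h : H, ∀ g : G, (g : Equiv.Perm Ω) '' Δ = Δ → φ g ≠ h :=
  Pool.Agent.Lib.MP_5c8dfa_al.LS.main

/-- The case of a simple group `H`. -/
theorem simple_case :
    ∃ C : ℕ, ∀ (Ω : Type) [Finite Ω] (G : Subgroup (Equiv.Perm Ω)) (H : Type) [Group H]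
      (φ : G →* H), Function.Surjective φ → IsSimpleGroup H → C ≤ Nat.card H →
      ∃ Δ : Set Ω, ∃ h : H, ∀ g : G, (g : Equiv.Perm Ω) '' Δ = Δ → φ g ≠ h := by
  obtain ⟨C, h⟩ := result
  exact ⟨C, fun Ω _ G H _ φ hφ hH hC => h Ω G H φ hφ
    ⟨⊤, H, inferInstance, (⊤ : Subgroup H).subtype, hH, fun x => ⟨⟨x, trivial⟩, rfl⟩, hC⟩⟩

/-- The case of a large prime divisor of the order of `H`. -/
theorem prime_case :
    ∃ C : ℕ, ∀ (Ω : Type) [Finite Ω] (G : Subgroup (Equiv.Perm Ω)) (H : Type) [Group H]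
      (φ : G →* H), Function.Surjective φ → ∀ p : ℕ, p.Prime → C ≤ p → p ∣ Nat.card H →
      ∃ Δ : Set Ω, ∃ h : H, ∀ g : G, (g : Equiv.Perm Ω) '' Δ = Δ → φ g ≠ h := by
  obtain ⟨C, h⟩ := result
  refine ⟨C, fun Ω _ G H _ φ hφ p hp hC hd => h Ω G H φ hφ ?_⟩
  have : Finite H := Finite.of_surjective φ hφ
  have : Fact p.Prime := ⟨hp⟩
  obtain ⟨x, hx⟩ := exists_prime_orderOf_dvd_card' p hd
  have hc : Nat.card (Subgroup.zpowers x) = p := by rw [Nat.card_zpowers, hx]
  exact ⟨Subgroup.zpowers x, Subgroup.zpowers x, inferInstance, MonoidHom.id _,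
    isSimpleGroup_of_prime_card hc, Function.surjective_id, hc ▸ hC⟩

end Pool.Agent.Results.MP_5c8dfa_al.LargeSection
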