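import Mathlib
import Pool.Agent.Lib.MP_5c8dfa_al.Basic

/-!
Negative answer to Q1, even for transitive solvable permutation groups.
-/

set_option autoImplicit false

namespace Pool.Agent.Results.MP_5c8dfa_al.NoBound

open Pool.Agent.Lib.MP_5c8dfa_al

/-- For every `C` there are a finite set `Ω`, a transitive solvable group `G ≤ Sym(Ω)` and an
epimorphism `φ` of `G` onto a finite group `H` with `|H| ≥ C` such that, for every subset
`Δ ⊆ Ω`, the setwise stabilizer `G_Δ` is mapped by `φ` onto the whole of `H`. -/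
theorem result :
    ∀ C : ℕ, ∃ (Ω : Type) (_ : Finite Ω) (G : Subgroup (Equiv.Perm Ω))
      (H : Type) (_ : Group H) (_ : Finite H) (φ : G →* H),
      Function.Surjective φ ∧ C ≤ Nat.card H ∧
      (∀ a b : Ω, ∃ g : G, (g : Equiv.Perm Ω) a = b) ∧ Group.IsSolvable G ∧
      ∀ Δ : Set Ω, ∀ h : H, ∃ g : G, (g : Equiv.Perm Ω) '' Δ = Δ ∧ φ g = h := by
  intro C
  let e : Gam C ≃* (rho C).range := MonoidHom.ofInjective (rho_inj C)
  have he : ∀ w : Gam C, ((e w : (rho C).range) : Equiv.Perm (Fin 3 × Q C)) = rho C w :=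
    fun w => rfl
  have key : ∀ Δ : Set (Fin 3 × Q C), ∀ h : Q C, ∃ g : (rho C).range,
      (g : Equiv.Perm (Fin 3 × Q C)) '' Δ = Δ ∧ (phi0 C).comp e.symm.toMonoidHom g = h := by
    intro Δ h
    obtain ⟨w, hw, hφ⟩ := stab_surj C Δ h
    refine ⟨e w, ?_, by simpa using hφ⟩
    rw [he]
    ext p
    constructor
    · rintro ⟨q, hq, rfl⟩
      exact (hw q).2 hq
    · intro hp
      refine ⟨(rho C w).symm p, ?_, by simp⟩
      rw [← hw]
      simpa using hp
  refine ⟨Fin 3 × Q C, inferInstance, (rho C).range, Q C, inferInstance, inferInstance,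
    (phi0 C).comp e.symm.toMonoidHom, ?_, ?_, ?_, ?_, key⟩
  · intro h
    obtain ⟨g, -, hg⟩ := key ∅ h
    exact ⟨g, hg⟩
  · have : Nat.card (Q C) = 2 ^ C := by
      simp [Q, V]
    rw [this]
    exact Nat.lt_two_pow_self.le
  · intro a b
    obtain ⟨w, hw⟩ := trans_rho C a b
    exact ⟨e w, by rw [he, hw]⟩
  · have := solvable_W C
    exact Group.isSolvable_of_surjective (f := e.toMonoidHom) e.surjective

end Pool.Agent.Results.MP_5c8dfa_al.NoBound
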